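import Pool.Agent.R745.WI.Subm

/-!
`L0` is an oriented `6`-submanifold of `ℝ⁹`.
-/

set_option autoImplicit false
open Set Metric Function TopologicalSpace
open scoped ContDiff Manifold Topology

namespace Pool.Agent.R745.WI

abbrev E6 := EuclideanSpace ℝ (Fin 6)

theorem mfderiv_val_injective {k : ℕ} (U : Opens (EuclideanSpace ℝ (Fin k))) (m : U) :
    Injective (mfderiv (𝓡 k) (𝓡 k) (Subtype.val : U → EuclideanSpace ℝ (Fin k)) m) := by
  have h1 := isInvertible_mfderiv_extChartAt (I := 𝓡 k) (x := m) (mem_extChartAt_source m)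
  have h2 : (extChartAt (𝓡 k) m : U → EuclideanSpace ℝ (Fin k)) = Subtype.val := by
    funext x
    simp [extChartAt, Opens.chartAt_eq, chartAt_self_eq]
  rw [h2] at h1
  exact h1.injective

theorem atlas_oriented {k : ℕ} (U : Opens (EuclideanSpace ℝ (Fin k))) :
    ∀ e ∈ atlas (EuclideanSpace ℝ (Fin k)) U, ∀ e' ∈ atlas (EuclideanSpace ℝ (Fin k)) U,
      ∀ x ∈ (e.symm.trans e').source, 0 < (fderiv ℝ (e.symm.trans e') x).det := by
  intro e he e' he' x hx
  have hval : ∀ e ∈ atlas (EuclideanSpace ℝ (Fin k)) U, ∀ u : U, e u = u := by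
    intro e he u
    simp only [atlas, ChartedSpace.atlas, mem_iUnion, mem_singleton_iff] at he
    obtain ⟨y, rfl⟩ := he
    simp [chartAt_self_eq]
  have hopen : IsOpen (e.symm.trans e').source := (e.symm.trans e').open_source
  have h1 : ∀ y ∈ (e.symm.trans e').source, (e.symm.trans e') y = y := by
    intro y hy
    rw [OpenPartialHomeomorph.trans_source] at hy
    rw [OpenPartialHomeomorph.trans_apply, hval e' he', ← hval e he]
    exact e.right_inv (by simpa using hy.1)
  have h2 : (e.symm.trans e' : EuclideanSpace ℝ (Fin k) → EuclideanSpace ℝ (Fin k)) =ᶠ[𝓝 x] id :=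
    Filter.eventually_of_mem (hopen.mem_nhds hx) h1
  rw [h2.fderiv_eq, fderiv_id]
  simp [ContinuousLinearMap.det]

/-- the parametrizing open set -/
def U0 : Opens E6 where
  carrier := {z | z 5 < 0 ∨ (0 < z 5 ∧ 0 < z 0 ^ 2 + z 1 ^ 2 + z 2 ^ 2)}
  is_open' := by
    have c : ∀ i : Fin 6, Continuous fun z : E6 => z i := fun i => by fun_prop
    apply IsOpen.union
    · exact isOpen_lt (c 5) continuous_const
    · apply IsOpen.inter
      · exact isOpen_lt continuous_const (c 5)
      · have : Continuous fun z : E6 => z 0 ^ 2 + z 1 ^ 2 + z 2 ^ 2 := by fun_prop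
        exact isOpen_lt continuous_const this

/-- the sphere part -/
noncomputable def H1 (z : E6) : E9 :=
  !₂[z 0 / √(z 0 ^ 2 + z 1 ^ 2 + z 2 ^ 2), z 1 / √(z 0 ^ 2 + z 1 ^ 2 + z 2 ^ 2),
    z 2 / √(z 0 ^ 2 + z 1 ^ 2 + z 2 ^ 2), 0, 0, Real.log √(z 0 ^ 2 + z 1 ^ 2 + z 2 ^ 2),
    z 3, z 4, Real.log (z 5)]

/-- the point part -/
noncomputable def H2 (z : E6) : E9 :=
  !₂[1 / 2, 0, 0, z 0, z 1, z 2, z 3, z 4, Real.log (z 5)]

/-- the parametrization -/
noncomputable def H (z : E6) : E9 := if 0 < z 5 then H1 z else H2 z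

/-- left inverse on the sphere part -/
noncomputable def G1 (z : E9) : E6 :=
  !₂[Real.exp (z 5) * z 0, Real.exp (z 5) * z 1, Real.exp (z 5) * z 2, z 6, z 7, Real.exp (z 8)]

/-- left inverse on the point part -/
noncomputable def G2 (z : E9) : E6 :=
  !₂[z 3, z 4, z 5, z 6, z 7, - Real.exp (z 8)]

/-- the left inverse -/
noncomputable def G (z : E9) : E6 :=
  ((4 * nn z - 1) / 3) • G1 z + (1 - (4 * nn z - 1) / 3) • G2 z

theorem contDiff_G : ContDiff ℝ ∞ G := by
  have h1 : ContDiff ℝ ∞ G1 := by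
    rw [contDiff_euclidean]
    intro i
    fin_cases i <;> simp [G1] <;> fun_prop
  have h2 : ContDiff ℝ ∞ G2 := by
    rw [contDiff_euclidean]
    intro i
    fin_cases i <;> simp [G2] <;> fun_prop
  have h3 : ContDiff ℝ ∞ (fun z : E9 => (4 * nn z - 1) / 3) := by
    simp only [nn]
    fun_prop
  exact (h3.smul h1).add ((contDiff_const.sub h3).smul h2)

theorem contDiffAt_H {z : E6} (hz : z ∈ U0) : ContDiffAt ℝ ∞ H z := by
  have c5 : Continuous fun z : E6 => z 5 := by fun_prop
  rcases hz with h | ⟨h, hr⟩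
  · have e : H =ᶠ[𝓝 z] H2 := by
      have : ∀ᶠ y in 𝓝 z, y 5 < 0 := c5.continuousAt.eventually_lt continuousAt_const h
      filter_upwards [this] with y hy
      rw [H, if_neg (not_lt.2 hy.le)]
    refine ContDiffAt.congr_of_eventuallyEq ?_ e
    rw [contDiffAt_euclidean]
    have hl : ContDiffAt ℝ ∞ (fun z : E6 => Real.log (z 5)) z :=
      ContDiffAt.log (by fun_prop) h.ne
    intro i
    fin_cases i <;> simp only [H2] <;> first | exact hl | (simp; fun_prop)
  · have e : H =ᶠ[𝓝 z] H1 := by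
      have : ∀ᶠ y in 𝓝 z, 0 < y 5 := continuousAt_const.eventually_lt c5.continuousAt h
      filter_upwards [this] with y hy
      rw [H, if_pos hy]
    refine ContDiffAt.congr_of_eventuallyEq ?_ e
    rw [contDiffAt_euclidean]
    have hl : ContDiffAt ℝ ∞ (fun z : E6 => Real.log (z 5)) z :=
      ContDiffAt.log (by fun_prop) h.ne'
    have hs : ContDiffAt ℝ ∞ (fun z : E6 => √(z 0 ^ 2 + z 1 ^ 2 + z 2 ^ 2)) z :=
      ContDiffAt.sqrt (by fun_prop) hr.ne'
    have hs0 : √(z 0 ^ 2 + z 1 ^ 2 + z 2 ^ 2) ≠ 0 := (Real.sqrt_pos.2 hr).ne'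
    have hls : ContDiffAt ℝ ∞ (fun z : E6 => Real.log √(z 0 ^ 2 + z 1 ^ 2 + z 2 ^ 2)) z :=
      hs.log hs0
    have hd : ∀ i : Fin 6, ContDiffAt ℝ ∞
        (fun z : E6 => z i / √(z 0 ^ 2 + z 1 ^ 2 + z 2 ^ 2)) z := fun i =>
      ContDiffAt.div (by fun_prop) hs hs0
    intro i
    fin_cases i <;> simp only [H1] <;>
      first | exact hl | exact hls | exact hd 0 | exact hd 1 | exact hd 2 | (simp; fun_prop)

theorem G_H {z : E6} (hz : z ∈ U0) : G (H z) = z := by
  rcases hz with h | ⟨h, hr⟩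
  · rw [H, if_neg (not_lt.2 h.le)]
    have e : nn (H2 z) = 1 / 4 := by
      simp [nn, H2]
      norm_num
    rw [G, e]
    have e2 : G2 (H2 z) = z := by
      ext i
      fin_cases i <;> simp [G2, H2]
      rw [Real.exp_log_of_neg h]
      ring
    rw [e2]
    norm_num
  · rw [H, if_pos h]
    set r := √(z 0 ^ 2 + z 1 ^ 2 + z 2 ^ 2) with hrd
    have hr0 : 0 < r := Real.sqrt_pos.2 hr
    have hr2 : r ^ 2 = z 0 ^ 2 + z 1 ^ 2 + z 2 ^ 2 := Real.sq_sqrt hr.le
    have e : nn (H1 z) = 1 := by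
      simp only [nn, H1, ← hrd]
      show (z 0 / r) ^ 2 + (z 1 / r) ^ 2 + (z 2 / r) ^ 2 = 1
      field_simp
      linarith
    rw [G, e]
    have e2 : G1 (H1 z) = z := by
      ext i
      fin_cases i <;> simp [G1, H1, ← hrd, Real.exp_log hr0, Real.exp_log h]
      · field_simp
      · field_simp
      · field_simp
    rw [e2]
    norm_num

theorem range_H : range (fun z : U0 => H z) = L0 := by
  apply Subset.antisymm
  · rintro _ ⟨⟨z, hz⟩, rfl⟩
    rcases hz with h | ⟨h, hr⟩
    · right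
      simp only [H]
      rw [if_neg (not_lt.2 h.le)]
      simp [H2]
    · left
      simp only [H]
      rw [if_pos h]
      set r := √(z 0 ^ 2 + z 1 ^ 2 + z 2 ^ 2) with hrd
      have hr0 : 0 < r := Real.sqrt_pos.2 hr
      have hr2 : r ^ 2 = z 0 ^ 2 + z 1 ^ 2 + z 2 ^ 2 := Real.sq_sqrt hr.le
      refine ⟨?_, rfl, rfl⟩
      simp only [H1, ← hrd]
      show (z 0 / r) ^ 2 + (z 1 / r) ^ 2 + (z 2 / r) ^ 2 = 1
      field_simp
      linarith
  · intro z hz
    rcases hz with ⟨h, h3, h4⟩ | ⟨h0, h1, h2⟩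
    · have hU : G1 z ∈ U0 := by
        right
        refine ⟨Real.exp_pos _, ?_⟩
        show 0 < (Real.exp (z 5) * z 0) ^ 2 + (Real.exp (z 5) * z 1) ^ 2
          + (Real.exp (z 5) * z 2) ^ 2
        have : (Real.exp (z 5) * z 0) ^ 2 + (Real.exp (z 5) * z 1) ^ 2
          + (Real.exp (z 5) * z 2) ^ 2 = Real.exp (z 5) ^ 2 := by
          linear_combination Real.exp (z 5) ^ 2 * h
        rw [this]
        positivity
      refine ⟨⟨G1 z, hU⟩, ?_⟩
      have hpos : 0 < (G1 z) 5 := Real.exp_pos _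
      show H (G1 z) = z
      rw [H, if_pos hpos]
      have e : √((G1 z) 0 ^ 2 + (G1 z) 1 ^ 2 + (G1 z) 2 ^ 2) = Real.exp (z 5) := by
        have : (G1 z) 0 ^ 2 + (G1 z) 1 ^ 2 + (G1 z) 2 ^ 2 = Real.exp (z 5) ^ 2 := by
          show (Real.exp (z 5) * z 0) ^ 2 + (Real.exp (z 5) * z 1) ^ 2
            + (Real.exp (z 5) * z 2) ^ 2 = _
          linear_combination Real.exp (z 5) ^ 2 * h
        rw [this, Real.sqrt_sq (Real.exp_pos _).le]
      ext i
      rw [H1, e]
      fin_cases i <;> simp [G1, h3, h4]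
    · have hU : G2 z ∈ U0 := by
        left
        show - Real.exp (z 8) < 0
        linarith [Real.exp_pos (z 8)]
      refine ⟨⟨G2 z, hU⟩, ?_⟩
      have hneg : ¬ 0 < (G2 z) 5 := by
        show ¬ 0 < - Real.exp (z 8)
        linarith [Real.exp_pos (z 8)]
      show H (G2 z) = z
      rw [H, if_neg hneg]
      ext i
      fin_cases i <;> simp [H2, G2, h0, h1, h2]

theorem isClosed_L0 : IsClosed L0 := by
  have c : ∀ i : Fin 9, Continuous fun z : E9 => z i := fun i => by fun_prop
  apply IsClosed.union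
  · exact (isClosed_eq (by fun_prop) continuous_const).inter
      ((isClosed_eq (c 3) continuous_const).inter (isClosed_eq (c 4) continuous_const))
  · exact (isClosed_eq (c 0) continuous_const).inter
      ((isClosed_eq (c 1) continuous_const).inter (isClosed_eq (c 2) continuous_const))

theorem contMDiff_H : ContMDiff (𝓡 6) (𝓡 9) ∞ (fun z : U0 => H z) := by
  intro z
  exact (contDiffAt_H z.2).contMDiffAt.comp z contMDiff_subtype_val.contMDiffAt

theorem proper_H : IsProperMap (fun z : U0 => H z) := by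
  apply Topology.IsClosedEmbedding.isProperMap
  have hc : Continuous (fun z : U0 => H z) := contMDiff_H.continuous
  refine ⟨?_, ?_⟩
  · apply Topology.IsEmbedding.of_comp hc contDiff_G.continuous
    have : (G ∘ fun z : U0 => H z) = Subtype.val := by
      funext z
      exact G_H z.2
    rw [this]
    exact Topology.IsEmbedding.subtypeVal
  · rw [range_H]
    exact isClosed_L0

theorem injective_H : Injective (fun z : U0 => H z) := by
  intro z w h
  apply Subtype.ext
  rw [← G_H z.2, ← G_H w.2]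
  exact congrArg G h

theorem immersion_H (m : U0) : Injective (mfderiv (𝓡 6) (𝓡 9) (fun z : U0 => H z) m) := by
  have h1 : MDifferentiableAt (𝓡 6) (𝓡 9) (fun z : U0 => H z) m :=
    (contMDiff_H m).mdifferentiableAt (by simp)
  have h2 : MDifferentiableAt (𝓡 9) (𝓡 6) G (H m) :=
    (contDiff_G.differentiable (by simp) _).mdifferentiableAt
  have h3 := mfderiv_comp m h2 h1
  have h4 : (G ∘ fun z : U0 => H z) = Subtype.val := by
    funext z
    exact G_H z.2
  rw [h4] at h3
  have h5 := mfderiv_val_injective U0 m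
  rw [h3] at h5
  exact Injective.of_comp (f := mfderiv (𝓡 9) (𝓡 6) G (H m)) h5

end Pool.Agent.R745.WI
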