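import Pool.Agent.R745.WI.Transport
import Pool.Agent.Helper104.HairyBall

/-!
The set `L ⊆ ℝ⁹` is not a complete intersection.
-/

set_option autoImplicit false
open Set Metric Function
open scoped ContDiff

namespace Pool.Agent.R745.WI

/-- The six-dimensional submanifold `({|x| = 1, y = 0} ∪ {x = (1/2, 0, 0)}) × ℝ⁴` of
`ℝ⁹ = ℝ³ₓ × ℝ²_y × ℝ⁴`. -/
def L0 : Set (EuclideanSpace ℝ (Fin 9)) :=
  {z | (z 0 ^ 2 + z 1 ^ 2 + z 2 ^ 2 = 1 ∧ z 3 = 0 ∧ z 4 = 0) ∨ (z 0 = 1 / 2 ∧ z 1 = 0 ∧ z 2 = 0)}

/-- inclusion `ℝ³ → ℝ⁹`. -/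
noncomputable def emb : E3 →L[ℝ] EuclideanSpace ℝ (Fin 9) :=
  LinearMap.toContinuousLinearMap
    { toFun := fun x => !₂[x 0, x 1, x 2, 0, 0, 0, 0, 0, 0]
      map_add' := by
        intro x y
        ext i
        fin_cases i <;> simp
      map_smul' := by
        intro c x
        ext i
        fin_cases i <;> simp }

/-- projection `ℝ⁹ → ℝ³` -/
noncomputable def prj : EuclideanSpace ℝ (Fin 9) →L[ℝ] E3 :=
  LinearMap.toContinuousLinearMap
    { toFun := fun x => !₂[x 0, x 1, x 2]
      map_add' := by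
        intro x y
        ext i
        fin_cases i <;> simp
      map_smul' := by
        intro c x
        ext i
        fin_cases i <;> simp }

theorem emb_apply (x : E3) : emb x = !₂[x 0, x 1, x 2, 0, 0, 0, 0, 0, 0] := rfl
theorem prj_apply (x : EuclideanSpace ℝ (Fin 9)) : prj x = !₂[x 0, x 1, x 2] := rfl

/-- the point `(1/2, 0, 0)` -/
noncomputable def p0 : E3 := !₂[1 / 2, 0, 0]

/-- coordinate vector `∂/∂y₀`. -/
noncomputable def v3 : EuclideanSpace ℝ (Fin 9) := !₂[0, 0, 0, 1, 0, 0, 0, 0, 0]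
/-- coordinate vector `∂/∂y₁`. -/
noncomputable def v4 : EuclideanSpace ℝ (Fin 9) := !₂[0, 0, 0, 0, 1, 0, 0, 0, 0]

theorem fderiv_zero_of_curve {n : ℕ} {Ξ : EuclideanSpace ℝ (Fin n) → E3} {z : EuclideanSpace ℝ (Fin n)}
    (hΞ : DifferentiableAt ℝ Ξ z) (c : ℝ → EuclideanSpace ℝ (Fin n)) {d : EuclideanSpace ℝ (Fin n)}
    (hc : HasDerivAt c d 0) (h0 : c 0 = z) (hz : ∀ t, Ξ (c t) = 0) : fderiv ℝ Ξ z d = 0 := by
  have h1 : HasFDerivAt Ξ (fderiv ℝ Ξ z) (c 0) := by rw [h0]; exact hΞ.hasFDerivAt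
  have h2 := h1.comp_hasDerivAt (0 : ℝ) hc
  have h3 : (Ξ ∘ c) = fun _ => (0 : E3) := funext hz
  rw [h3] at h2
  exact h2.unique (hasDerivAt_const _ _)

theorem hasDerivAt_line {V : Type*} [NormedAddCommGroup V] [NormedSpace ℝ V] (p d : V) :
    HasDerivAt (fun t : ℝ => p + t • d) d 0 := by
  simpa using ((hasDerivAt_id (0 : ℝ)).smul_const d).const_add p

section
variable {Ξ : EuclideanSpace ℝ (Fin 9) → E3} (hΞ : ContDiff ℝ 1 Ξ)
  (hreg : ∀ z, Ξ z = 0 → Surjective (fderiv ℝ Ξ z)) (hL : L0 = Ξ ⁻¹' {0})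

include hΞ hL in
theorem fderiv_p0_zero (d : EuclideanSpace ℝ (Fin 9)) (h0 : d 0 = 0) (h1 : d 1 = 0)
    (h2 : d 2 = 0) : fderiv ℝ Ξ (emb p0) d = 0 := by
  refine fderiv_zero_of_curve (hΞ.differentiable one_ne_zero _) (fun t => emb p0 + t • d)
    (hasDerivAt_line _ _) (by simp) fun t => ?_
  have : emb p0 + t • d ∈ L0 := by
    right
    simp [emb_apply, p0, h0, h1, h2]
  rw [hL] at this
  exact this

include hΞ hL in
theorem fderiv_p0 (d : EuclideanSpace ℝ (Fin 9)) :
    fderiv ℝ Ξ (emb p0) d = fderiv ℝ Ξ (emb p0) (emb (prj d)) := by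
  rw [← sub_eq_zero, ← map_sub]
  apply fderiv_p0_zero hΞ hL <;> simp [emb_apply, prj_apply]

include hΞ hL hreg in
theorem surj_B : Surjective ((fderiv ℝ Ξ (emb p0)).comp emb) := by
  intro v
  have hz : Ξ (emb p0) = 0 := by
    have : emb p0 ∈ L0 := by
      right
      simp [emb_apply, p0]
    rw [hL] at this
    exact this
  obtain ⟨d, hd⟩ := hreg _ hz v
  refine ⟨prj d, ?_⟩
  rw [ContinuousLinearMap.comp_apply, ← fderiv_p0 hΞ hL, hd]

theorem sphere_eq {x : E3} (hx : ‖x‖ = 1) : x 0 ^ 2 + x 1 ^ 2 + x 2 ^ 2 = 1 := by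
  have := EuclideanSpace.norm_sq_eq x
  rw [hx, Fin.sum_univ_three] at this
  simp at this
  linarith

theorem norm_sq3 (x : E3) : ‖x‖ ^ 2 = x 0 ^ 2 + x 1 ^ 2 + x 2 ^ 2 := by
  rw [EuclideanSpace.norm_sq_eq, Fin.sum_univ_three]
  simp

include hΞ hL in
theorem fderiv_sph_zero {x : E3} (hx : ‖x‖ = 1) (d : E3) (h0 : inner ℝ x d = 0) :
    fderiv ℝ Ξ (emb x) (emb d) = 0 := by
  rcases eq_or_ne d 0 with h | hd
  · simp [h]
  have hdn : ‖d‖ ≠ 0 := norm_ne_zero_iff.2 hd
  refine fderiv_zero_of_curve (hΞ.differentiable one_ne_zero _)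
    (fun t => emb (Real.cos (‖d‖ * t) • x + (‖d‖⁻¹ * Real.sin (‖d‖ * t)) • d))
    ?_ (by simp) fun t => ?_
  · apply emb.hasFDerivAt.comp_hasDerivAt
    have hlin : HasDerivAt (fun t : ℝ => ‖d‖ * t) ‖d‖ 0 := by
      simpa using (hasDerivAt_id (0 : ℝ)).const_mul ‖d‖
    have h1 : HasDerivAt (fun t : ℝ => Real.cos (‖d‖ * t)) 0 0 := by
      have := hlin.cos
      simpa using this
    have h2 : HasDerivAt (fun t : ℝ => ‖d‖⁻¹ * Real.sin (‖d‖ * t)) 1 0 := by
      have := hlin.sin.const_mul (‖d‖⁻¹)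
      simpa [inv_mul_cancel₀ hdn] using this
    have h3 := (h1.smul_const x).add (h2.smul_const d)
    rw [zero_smul, one_smul, zero_add] at h3
    exact h3
  · have : emb (Real.cos (‖d‖ * t) • x + (‖d‖⁻¹ * Real.sin (‖d‖ * t)) • d) ∈ L0 := by
      left
      have e : ‖Real.cos (‖d‖ * t) • x + (‖d‖⁻¹ * Real.sin (‖d‖ * t)) • d‖ ^ 2 = 1 := by
        rw [← real_inner_self_eq_norm_sq, inner_add_left, inner_add_right, inner_add_right]
        simp only [inner_smul_left, inner_smul_right, real_inner_self_eq_norm_sq, hx,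
          real_inner_comm x d, h0]
        have := Real.sin_sq_add_cos_sq (‖d‖ * t)
        simp
        field_simp
        linarith
      rw [norm_sq3] at e
      refine ⟨?_, ?_, ?_⟩
      · simpa [emb_apply] using e
      · simp [emb_apply]
      · simp [emb_apply]
    rw [hL] at this
    exact this

include hΞ hL in
theorem fderiv_sph_zero' {x : E3} (hx : ‖x‖ = 1) (d : EuclideanSpace ℝ (Fin 9)) (h0 : d 0 = 0)
    (h1 : d 1 = 0) (h2 : d 2 = 0) (h3 : d 3 = 0) (h4 : d 4 = 0) :
    fderiv ℝ Ξ (emb x) d = 0 := by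
  refine fderiv_zero_of_curve (hΞ.differentiable one_ne_zero _) (fun t => emb x + t • d)
    (hasDerivAt_line _ _) (by simp) fun t => ?_
  have : emb x + t • d ∈ L0 := by
    left
    have := sphere_eq hx
    simp [emb_apply, h0, h1, h2, h3, h4, this]
  rw [hL] at this
  exact this

include hΞ hL in
theorem fderiv_sph {x : E3} (hx : ‖x‖ = 1) (d : EuclideanSpace ℝ (Fin 9)) :
    fderiv ℝ Ξ (emb x) d = (inner ℝ x (prj d) : ℝ) • fderiv ℝ Ξ (emb x) (emb x)
      + d 3 • fderiv ℝ Ξ (emb x) v3 + d 4 • fderiv ℝ Ξ (emb x) v4 := by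
  have e1 : fderiv ℝ Ξ (emb x) (emb (prj d - (inner ℝ x (prj d) : ℝ) • x)) = 0 := by
    apply fderiv_sph_zero hΞ hL hx
    rw [inner_sub_right, inner_smul_right, real_inner_self_eq_norm_sq, hx]
    ring
  have e2 : fderiv ℝ Ξ (emb x) (d - emb (prj d) - d 3 • v3 - d 4 • v4) = 0 := by
    apply fderiv_sph_zero' hΞ hL hx <;> simp [emb_apply, prj_apply, v3, v4]
  rw [map_sub, map_sub, map_smul, map_smul, sub_eq_zero] at e1
  rw [map_sub, map_sub, map_sub, map_smul, map_smul, e1] at e2
  rw [← sub_eq_zero, ← e2]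
  abel

include hΞ hL hreg in
theorem indep {x : E3} (hx : ‖x‖ = 1) :
    ∀ α β : ℝ, α • fderiv ℝ Ξ (emb x) (emb x) + β • fderiv ℝ Ξ (emb x) v3 = 0 → α = 0 ∧ β = 0 := by
  set A := fderiv ℝ Ξ (emb x) (emb x)
  set V := fderiv ℝ Ξ (emb x) v3
  set W := fderiv ℝ Ξ (emb x) v4
  let T : E3 →ₗ[ℝ] E3 :=
    { toFun := fun c => c 0 • A + c 1 • V + c 2 • W
      map_add' := by
        intro c c'
        simp only [PiLp.add_apply, add_smul]
        abel
      map_smul' := by
        intro r c
        simp only [PiLp.smul_apply, smul_eq_mul, mul_smul, RingHom.id_apply, smul_add] }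
  have hz : Ξ (emb x) = 0 := by
    have : emb x ∈ L0 := by
      left
      have := sphere_eq hx
      simp [emb_apply, this]
    rw [hL] at this
    exact this
  have hT : Surjective T := by
    intro v
    obtain ⟨d, hd⟩ := hreg _ hz v
    refine ⟨!₂[inner ℝ x (prj d), d 3, d 4], ?_⟩
    rw [← hd, fderiv_sph hΞ hL hx]
    simp [T, A, V, W]
  have hT' : Injective T := LinearMap.injective_iff_surjective.2 hT
  intro α β h
  have h1 : T !₂[α, β, 0] = T 0 := by
    simpa [T] using h
  have h2 := hT' h1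
  have h3 := congrArg (fun c : E3 => c 0) h2
  have h4 := congrArg (fun c : E3 => c 1) h2
  simp at h3 h4
  exact ⟨h3, h4⟩

include hΞ hL hreg in
theorem not_ci : False := by
  have hfd := hΞ.continuous_fderiv one_ne_zero
  let X := sphere (0 : E3) 1
  have hX : ∀ x : X, ‖(x : E3)‖ = 1 := fun x => mem_sphere_zero_iff_norm.1 x.2
  -- vanishing on L0
  have hzero : ∀ z, Ξ z = 0 ↔ z ∈ L0 := by
    intro z
    rw [hL]
    rfl
  have hp0 : ∀ x : X, (x : E3) - p0 ≠ 0 := by
    intro x h
    have h1 : (x : E3) = p0 := sub_eq_zero.1 h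
    have h2 := sphere_eq (hX x)
    rw [h1] at h2
    simp [p0] at h2
    norm_num at h2
  -- interior points of the segments are not in L0
  have hint : ∀ x : X, ∀ r : ℝ, 0 < r → r < 1 → Ξ (emb ((x : E3) + r • (p0 - x))) ≠ 0 := by
    intro x r hr0 hr1 h
    rw [hzero] at h
    have hx := sphere_eq (hX x)
    rcases h with ⟨h, -, -⟩ | ⟨h1, h2, h3⟩
    · simp [emb_apply, p0] at h
      have hx0 : (x : E3) 0 ≤ 1 := by nlinarith [sq_nonneg ((x : E3) 1), sq_nonneg ((x : E3) 2)]
      have h5 : 0 < r * (1 - r) := mul_pos hr0 (by linarith)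
      nlinarith [mul_le_mul_of_nonneg_left hx0 h5.le, sq_nonneg ((x : E3) 1),
        sq_nonneg ((x : E3) 2)]
    · simp [emb_apply, p0] at h1 h2 h3
      have hr2 : 1 - r ≠ 0 := by linarith
      have e0 : (x : E3) 0 = 1 / 2 := by
        have : (1 - r) * ((x : E3) 0 - 1 / 2) = 0 := by linear_combination h1
        rcases mul_eq_zero.1 this with h | h
        · exact absurd h hr2
        · linarith
      have e1 : (x : E3) 1 = 0 := by
        have : (1 - r) * ((x : E3) 1) = 0 := by linear_combination h2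
        rcases mul_eq_zero.1 this with h | h
        · exact absurd h hr2
        · linarith
      have e2 : (x : E3) 2 = 0 := by
        have : (1 - r) * ((x : E3) 2) = 0 := by linear_combination h3
        rcases mul_eq_zero.1 this with h | h
        · exact absurd h hr2
        · linarith
      rw [e0, e1, e2] at hx
      norm_num at hx
  have hsx : ∀ x : X, Ξ (emb (x : E3)) = 0 := by
    intro x
    rw [hzero]
    left
    have := sphere_eq (hX x)
    simp [emb_apply, this]
  have hsp : Ξ (emb p0) = 0 := by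
    rw [hzero]
    right
    simp [emb_apply, p0]
  -- step 1: outer end
  have s1 : HasPerp (fun x : X => fderiv ℝ Ξ (emb x) (emb (p0 - x))) := by
    have key : ∀ x : X, fderiv ℝ Ξ (emb x) (emb (p0 - x)) =
        ((1 / 2) * (x : E3) 0 - 1) • fderiv ℝ Ξ (emb x) (emb x) := by
      intro x
      rw [fderiv_sph hΞ hL (hX x)]
      have e1 : prj (emb (p0 - x)) = p0 - x := by
        ext i
        fin_cases i <;> simp [prj_apply, emb_apply]
      have e2 : (inner ℝ (x : E3) (p0 - x) : ℝ) = (1 / 2) * (x : E3) 0 - 1 := by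
        have := sphere_eq (hX x)
        rw [inner_sub_right, real_inner_self_eq_norm_sq, hX x, PiLp.inner_apply,
          Fin.sum_univ_three]
        simp [p0]
      rw [e1, e2]
      simp [emb_apply]
    have hc : ∀ x : X, (1 / 2) * (x : E3) 0 - 1 ≠ 0 := by
      intro x h
      have hx := sphere_eq (hX x)
      nlinarith [sq_nonneg ((x : E3) 1), sq_nonneg ((x : E3) 2)]
    refine HasPerp.of_indep (v := fun x : X => fderiv ℝ Ξ (emb x) v3) (by fun_prop) (by fun_prop)
      ?_ ?_
    · intro x h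
      rw [key] at h
      have := (indep hΞ hreg hL (hX x) ((1 / 2) * (x : E3) 0 - 1) 0 (by rw [h]; simp)).1
      exact hc x this
    · intro x c h
      rw [key, smul_smul] at h
      have := (indep hΞ hreg hL (hX x) (-(c * ((1 / 2) * (x : E3) 0 - 1))) 1
        (by rw [h, neg_smul, one_smul]; abel)).2
      exact one_ne_zero this
  -- step 2: go to the midpoint
  have hemb : ∀ (x : X) (r : ℝ), emb (x : E3) + r • emb (p0 - x) =
      emb ((x : E3) + r • (p0 - x)) := by
    intro x r
    rw [map_add, map_smul]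
  have c2 : Continuous (uncurry fun (x : X) r => quot Ξ (emb (x : E3)) (emb (p0 - x)) r) :=
    continuous_quot hΞ (by fun_prop) (by fun_prop)
  have s2 : HasPerp (fun x : X => quot Ξ (emb (x : E3)) (emb (p0 - x)) (1 / 2)) := by
    refine HasPerp.transport (fun (x : X) r => quot Ξ (emb (x : E3)) (emb (p0 - x)) r) c2
      (a := 0) (b := 1 / 2) ?_ (r := 0) (by constructor <;> norm_num)
      (by constructor <;> norm_num) ?_
    · intro x r hr h
      rcases eq_or_lt_of_le hr.1 with h0 | h0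
      · subst h0
        rw [quot_zero] at h
        obtain ⟨ψ, -, hψ, hp⟩ := s1
        -- non vanishing of the outer end
        have key := (indep hΞ hreg hL (hX x) (inner ℝ (x : E3) (p0 - x)) 0 ?_).1
        · have := sphere_eq (hX x)
          rw [inner_sub_right, real_inner_self_eq_norm_sq, hX x, PiLp.inner_apply,
            Fin.sum_univ_three] at key
          simp [p0] at key
          nlinarith [sq_nonneg ((x : E3) 1), sq_nonneg ((x : E3) 2)]
        · rw [fderiv_sph hΞ hL (hX x)] at h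
          have e1 : prj (emb (p0 - x)) = p0 - x := by
            ext i
            fin_cases i <;> simp [prj_apply, emb_apply]
          rw [e1] at h
          simpa [emb_apply] using h
      · have h1 := smul_quot hΞ (emb (x : E3)) (emb (p0 - x)) r
        rw [h, smul_zero, hemb, hsx, sub_zero] at h1
        exact hint x r h0 (by linarith [hr.2]) h1.symm
    · exact s1.congr fun x => (quot_zero _ _ _).symm
  -- step 3: the midpoint seen from the inner end
  have hmid : ∀ x : X, quot Ξ (emb (x : E3)) (emb (p0 - x)) (1 / 2) =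
      quot Ξ (emb p0) (emb ((x : E3) - p0)) (1 / 2) := by
    intro x
    have h1 := smul_quot hΞ (emb (x : E3)) (emb (p0 - x)) (1 / 2)
    have h2 := smul_quot hΞ (emb p0) (emb ((x : E3) - p0)) (1 / 2)
    have h3 : emb (x : E3) + (1 / 2 : ℝ) • emb (p0 - x) =
        emb p0 + (1 / 2 : ℝ) • emb ((x : E3) - p0) := by
      rw [← map_smul, ← map_smul, ← map_add, ← map_add]
      congr 1
      module
    rw [h3, hsx, ← hsp, ← h2] at h1
    exact smul_right_injective _ (by norm_num : (1 / 2 : ℝ) ≠ 0) h1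
  have c4 : Continuous (uncurry fun (x : X) r => quot Ξ (emb p0) (emb ((x : E3) - p0)) r) :=
    continuous_quot hΞ (by fun_prop) (by fun_prop)
  let B := (fderiv ℝ Ξ (emb p0)).comp emb
  have hB : Surjective B := surj_B hΞ hreg hL
  have hB' : Injective B := by
    have : Injective (B : E3 →ₗ[ℝ] E3) := LinearMap.injective_iff_surjective.2 hB
    exact this
  have s4 : HasPerp (fun x : X => quot Ξ (emb p0) (emb ((x : E3) - p0)) 0) := by
    refine HasPerp.transport (fun (x : X) r => quot Ξ (emb p0) (emb ((x : E3) - p0)) r) c4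
      (a := 0) (b := 1 / 2) ?_ (r := 1 / 2) (by constructor <;> norm_num)
      (by constructor <;> norm_num) (s2.congr hmid)
    intro x r hr h
    rcases eq_or_lt_of_le hr.1 with h0 | h0
    · subst h0
      rw [quot_zero] at h
      have h1 : B ((x : E3) - p0) = B 0 := by
        rw [map_zero]
        exact h
      exact hp0 x (hB' h1)
    · have h1 := smul_quot hΞ (emb p0) (emb ((x : E3) - p0)) r
      have h3 : emb p0 + r • emb ((x : E3) - p0) =
          emb ((x : E3) + (1 - r) • (p0 - x)) := by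
        rw [← map_smul, ← map_add]
        congr 1
        module
      rw [h, smul_zero, h3, hsp, sub_zero] at h1
      exact hint x (1 - r) (by linarith [hr.2]) (by linarith) h1.symm
  have s5 : HasPerp (fun x : X => (x : E3) - p0) := by
    refine HasPerp.of_map B hB (s4.congr fun x => ?_)
    rw [quot_zero]
    rfl
  have s6 : HasPerp (fun x : X => (x : E3)) := by
    have := HasPerp.transport (fun (x : X) (r : ℝ) => (x : E3) - r • p0) (by fun_prop)
      (a := 0) (b := 1) ?_ (r := 1) (s := 0) (by constructor <;> norm_num)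
      (by constructor <;> norm_num) (s5.congr fun x => by simp)
    · exact this.congr fun x => by simp
    · intro x r hr h
      have h1 : (x : E3) = r • p0 := sub_eq_zero.1 h
      have h2 := sphere_eq (hX x)
      rw [h1] at h2
      simp [p0] at h2
      rcases h2 with h2 | h2 <;> linarith [hr.1, hr.2]
  obtain ⟨ψ, hψ, h0, hp⟩ := s6
  exact Pool.Agent.Helper775.Hairy.hairy ψ hψ h0 hp
end

end Pool.Agent.R745.WI
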