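import Pool.Agent.R745.WI.NotCI

/-!
A submersion `Φ : ℝ⁹ → ℝ³` vanishing on `L0`.
-/

set_option autoImplicit false
open Set Metric Function
open scoped ContDiff

namespace Pool.Agent.R745.WI

abbrev E9 := EuclideanSpace ℝ (Fin 9)

/-- `|x|²` -/
def nn (z : E9) : ℝ := z 0 ^ 2 + z 1 ^ 2 + z 2 ^ 2
/-- first component of `G` -/
noncomputable def g0 (z : E9) : ℝ := (nn z - 1) * (nn z - 1 / 4)
/-- second component of `G` -/
noncomputable def g1 (z : E9) : ℝ := (nn z - 1) * z 1 + (nn z - 1 / 4) * z 3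
/-- third component of `G` -/
noncomputable def g2 (z : E9) : ℝ := (nn z - 1) * z 2 + (nn z - 1 / 4) * z 4

/-- the conformal rotation by the quaternion `s + u i + v j + w k`, applied to `(a, b, c)` -/
def rot (s u v w a b c : ℝ) : E3 :=
  !₂[(s ^ 2 - (u ^ 2 + v ^ 2 + w ^ 2)) * a + 2 * (u * a + v * b + w * c) * u
      + 2 * s * (v * c - w * b),
    (s ^ 2 - (u ^ 2 + v ^ 2 + w ^ 2)) * b + 2 * (u * a + v * b + w * c) * v
      + 2 * s * (w * a - u * c),
    (s ^ 2 - (u ^ 2 + v ^ 2 + w ^ 2)) * c + 2 * (u * a + v * b + w * c) * w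
      + 2 * s * (u * b - v * a)]

/-- the submersion -/
noncomputable def Phi (z : E9) : E3 :=
  rot (Real.exp (z 5)) (z 6) (z 7) (z 8) (g0 z) (g1 z) (g2 z)

theorem contDiff_Phi : ContDiff ℝ ∞ Phi := by
  rw [contDiff_euclidean]
  intro i
  have hz : ∀ j : Fin 9, ContDiff ℝ ∞ fun z : E9 => z j := fun j => by fun_prop
  fin_cases i <;> simp only [Phi, rot, g0, g1, g2, nn] <;> simp <;> fun_prop

/-- curves along which the velocity of `Phi` is prescribed give surjectivity -/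
theorem surj_of_curve {n : ℕ} {Ψ : EuclideanSpace ℝ (Fin n) → E3} {z : EuclideanSpace ℝ (Fin n)}
    (hΨ : DifferentiableAt ℝ Ψ z)
    (h : ∀ v : E3, ∃ (c : ℝ → EuclideanSpace ℝ (Fin n)) (d : EuclideanSpace ℝ (Fin n)),
      HasDerivAt c d 0 ∧ c 0 = z ∧ HasDerivAt (fun t => Ψ (c t)) v 0) :
    Surjective (fderiv ℝ Ψ z) := by
  intro v
  obtain ⟨c, d, hc, h0, hv⟩ := h v
  refine ⟨d, ?_⟩
  have h1 : HasFDerivAt Ψ (fderiv ℝ Ψ z) (c 0) := by rw [h0]; exact hΨ.hasFDerivAt
  exact (h1.comp_hasDerivAt (0 : ℝ) hc).unique hv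

theorem hasDerivAt_euc {n : ℕ} {f : ℝ → Fin n → ℝ} {f' : Fin n → ℝ} {t : ℝ}
    (h : ∀ i, HasDerivAt (fun t => f t i) (f' i) t) :
    HasDerivAt (fun t => (WithLp.toLp 2 (f t) : EuclideanSpace ℝ (Fin n))) (WithLp.toLp 2 f') t := by
  have h1 : HasDerivAt f f' t := hasDerivAt_pi.2 h
  exact (PiLp.hasFDerivAt_toLp (𝕜 := ℝ) 2 (f t)).comp_hasDerivAt t h1

theorem hasDerivAt_E3 {f0 f1 f2 : ℝ → ℝ} {a b c t : ℝ} (h0 : HasDerivAt f0 a t)
    (h1 : HasDerivAt f1 b t) (h2 : HasDerivAt f2 c t) :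
    HasDerivAt (fun t => (!₂[f0 t, f1 t, f2 t] : E3)) !₂[a, b, c] t := by
  apply hasDerivAt_euc
  intro i
  fin_cases i
  · exact h0
  · exact h1
  · exact h2

/-- derivative of one component of `rot` -/
theorem hasDerivAt_comp {s u v w a b c p x y : ℝ → ℝ} {s' u' v' w' a' b' c' p' x' y' t : ℝ}
    (hs : HasDerivAt s s' t) (hu : HasDerivAt u u' t) (hv : HasDerivAt v v' t)
    (hw : HasDerivAt w w' t) (ha : HasDerivAt a a' t) (hb : HasDerivAt b b' t)
    (hc : HasDerivAt c c' t) (hx : HasDerivAt x x' t) (hp : HasDerivAt p p' t)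
    (hy : HasDerivAt y y' t) :
    HasDerivAt (fun t => (s t ^ 2 - (u t ^ 2 + v t ^ 2 + w t ^ 2)) * x t
      + 2 * (u t * a t + v t * b t + w t * c t) * p t + 2 * s t * y t)
      ((2 * s t * s' - 2 * (u t * u' + v t * v' + w t * w')) * x t
        + (s t ^ 2 - (u t ^ 2 + v t ^ 2 + w t ^ 2)) * x'
        + 2 * (u' * a t + v' * b t + w' * c t) * p t
        + 2 * (u t * a' + v t * b' + w t * c') * p t
        + 2 * (u t * a t + v t * b t + w t * c t) * p' + 2 * s' * y t + 2 * s t * y') t := by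
  have h1 := (((hs.pow 2).sub (((hu.pow 2).add (hv.pow 2)).add (hw.pow 2))).mul hx).add
    (((((hu.mul ha).add (hv.mul hb)).add (hw.mul hc)).const_mul 2).mul hp)
  have h2 := h1.add ((hs.const_mul 2).mul hy)
  refine HasDerivAt.congr_deriv h2 ?_
  simp only [Pi.pow_apply, Pi.add_apply, Pi.sub_apply, Pi.mul_apply]
  push_cast
  ring

/-- derivative of `rot` -/
theorem hasDerivAt_rot {s u v w a b c : ℝ → ℝ} {s' u' v' w' a' b' c' t : ℝ}
    (hs : HasDerivAt s s' t) (hu : HasDerivAt u u' t) (hv : HasDerivAt v v' t)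
    (hw : HasDerivAt w w' t) (ha : HasDerivAt a a' t) (hb : HasDerivAt b b' t)
    (hc : HasDerivAt c c' t) :
    HasDerivAt (fun t => rot (s t) (u t) (v t) (w t) (a t) (b t) (c t))
      (rot (s t) (u t) (v t) (w t) a' b' c' + !₂[
        (2 * s t * s' - 2 * (u t * u' + v t * v' + w t * w')) * a t
          + 2 * (u' * a t + v' * b t + w' * c t) * u t
          + 2 * (u t * a t + v t * b t + w t * c t) * u'
          + 2 * s' * (v t * c t - w t * b t) + 2 * s t * (v' * c t - w' * b t),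
        (2 * s t * s' - 2 * (u t * u' + v t * v' + w t * w')) * b t
          + 2 * (u' * a t + v' * b t + w' * c t) * v t
          + 2 * (u t * a t + v t * b t + w t * c t) * v'
          + 2 * s' * (w t * a t - u t * c t) + 2 * s t * (w' * a t - u' * c t),
        (2 * s t * s' - 2 * (u t * u' + v t * v' + w t * w')) * c t
          + 2 * (u' * a t + v' * b t + w' * c t) * w t
          + 2 * (u t * a t + v t * b t + w t * c t) * w'
          + 2 * s' * (u t * b t - v t * a t) + 2 * s t * (u' * b t - v' * a t)]) t := by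
  have k1 : HasDerivAt (fun t => v t * c t - w t * b t)
      (v' * c t + v t * c' - (w' * b t + w t * b')) t := (hv.mul hc).sub (hw.mul hb)
  have k2 : HasDerivAt (fun t => w t * a t - u t * c t)
      (w' * a t + w t * a' - (u' * c t + u t * c')) t := (hw.mul ha).sub (hu.mul hc)
  have k3 : HasDerivAt (fun t => u t * b t - v t * a t)
      (u' * b t + u t * b' - (v' * a t + v t * a')) t := (hu.mul hb).sub (hv.mul ha)
  have k := hasDerivAt_E3
    (hasDerivAt_comp hs hu hv hw ha hb hc ha hu k1)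
    (hasDerivAt_comp hs hu hv hw ha hb hc hb hv k2)
    (hasDerivAt_comp hs hu hv hw ha hb hc hc hw k3)
  refine HasDerivAt.congr_deriv k ?_
  ext i
  fin_cases i
  · simp [rot]; ring
  · simp [rot]; ring
  · simp [rot]; ring

theorem hasDerivAt_coord (z d : E9) (i : Fin 9) :
    HasDerivAt (fun t : ℝ => (z + t • d) i) (d i) 0 := by
  have h : HasDerivAt (fun t : ℝ => z i + t * d i) (d i) 0 := by
    simpa using ((hasDerivAt_id (0 : ℝ)).mul_const (d i)).const_add (z i)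
  simpa using h

/-- derivative of `|x|²` -/
def nn' (z d : E9) : ℝ := 2 * (z 0 * d 0 + z 1 * d 1 + z 2 * d 2)

theorem hasDerivAt_nn (z d : E9) :
    HasDerivAt (fun t : ℝ => nn (z + t • d)) (nn' z d) 0 := by
  have h := (((hasDerivAt_coord z d 0).pow 2).add ((hasDerivAt_coord z d 1).pow 2)).add
    ((hasDerivAt_coord z d 2).pow 2)
  refine HasDerivAt.congr_deriv h ?_
  simp [nn']
  ring

theorem hasDerivAt_g0 (z d : E9) :
    HasDerivAt (fun t : ℝ => g0 (z + t • d))
      (nn' z d * (nn z - 1 / 4) + (nn z - 1) * nn' z d) 0 := by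
  have h := ((hasDerivAt_nn z d).sub_const 1).mul ((hasDerivAt_nn z d).sub_const (1 / 4))
  refine HasDerivAt.congr_deriv h ?_
  simp

theorem hasDerivAt_g1 (z d : E9) :
    HasDerivAt (fun t : ℝ => g1 (z + t • d))
      (nn' z d * z 1 + (nn z - 1) * d 1 + (nn' z d * z 3 + (nn z - 1 / 4) * d 3)) 0 := by
  have h := (((hasDerivAt_nn z d).sub_const 1).mul (hasDerivAt_coord z d 1)).add
    (((hasDerivAt_nn z d).sub_const (1 / 4)).mul (hasDerivAt_coord z d 3))
  refine HasDerivAt.congr_deriv h ?_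
  simp

theorem hasDerivAt_g2 (z d : E9) :
    HasDerivAt (fun t : ℝ => g2 (z + t • d))
      (nn' z d * z 2 + (nn z - 1) * d 2 + (nn' z d * z 4 + (nn z - 1 / 4) * d 4)) 0 := by
  have h := (((hasDerivAt_nn z d).sub_const 1).mul (hasDerivAt_coord z d 2)).add
    (((hasDerivAt_nn z d).sub_const (1 / 4)).mul (hasDerivAt_coord z d 4))
  refine HasDerivAt.congr_deriv h ?_
  simp

/-- `rot` is onto -/
theorem rot_surj (s u v w : ℝ) (hN : s ^ 2 + u ^ 2 + v ^ 2 + w ^ 2 ≠ 0) (y : E3) :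
    ∃ a b c, rot s u v w a b c = y := by
  set N := s ^ 2 + u ^ 2 + v ^ 2 + w ^ 2 with hNd
  refine ⟨((s ^ 2 - (u ^ 2 + v ^ 2 + w ^ 2)) * y 0 + 2 * (u * y 0 + v * y 1 + w * y 2) * u
      - 2 * s * (v * y 2 - w * y 1)) / N ^ 2,
    ((s ^ 2 - (u ^ 2 + v ^ 2 + w ^ 2)) * y 1 + 2 * (u * y 0 + v * y 1 + w * y 2) * v
      - 2 * s * (w * y 0 - u * y 2)) / N ^ 2,
    ((s ^ 2 - (u ^ 2 + v ^ 2 + w ^ 2)) * y 2 + 2 * (u * y 0 + v * y 1 + w * y 2) * w
      - 2 * s * (u * y 1 - v * y 0)) / N ^ 2, ?_⟩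
  ext i
  fin_cases i
  · simp [rot]; field_simp; rw [hNd]; ring
  · simp [rot]; field_simp; rw [hNd]; ring
  · simp [rot]; field_simp; rw [hNd]; ring

theorem Phi_surj_of_ne {z : E9} (hg : g0 z ≠ 0 ∨ g1 z ≠ 0 ∨ g2 z ≠ 0) :
    Surjective (fderiv ℝ Phi z) := by
  apply surj_of_curve ((contDiff_Phi.differentiable (by simp)) z)
  intro y
  set s := Real.exp (z 5) with hs
  have hs0 : 0 < s := Real.exp_pos _
  set N := s ^ 2 + z 6 ^ 2 + z 7 ^ 2 + z 8 ^ 2 with hN
  set M := g0 z ^ 2 + g1 z ^ 2 + g2 z ^ 2 with hM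
  have hN0 : 0 < N := by positivity
  have hM0 : 0 < M := by
    rcases hg with h | h | h <;> positivity
  set k := (2 * N * M)⁻¹ with hk
  have hk1 : k * (2 * N * M) = 1 := inv_mul_cancel₀ (by positivity)
  set p0 := s * g0 z + (z 7 * g2 z - z 8 * g1 z) with hp0
  set p1 := s * g1 z + (z 8 * g0 z - z 6 * g2 z) with hp1
  set p2 := s * g2 z + (z 6 * g1 z - z 7 * g0 z) with hp2
  set ug := z 6 * g0 z + z 7 * g1 z + z 8 * g2 z with hug
  set ds := k * (y 0 * p0 + y 1 * p1 + y 2 * p2) with hds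
  set du := k * (ug * y 0 - (y 1 * p2 - y 2 * p1)) with hdu
  set dv := k * (ug * y 1 - (y 2 * p0 - y 0 * p2)) with hdv
  set dw := k * (ug * y 2 - (y 0 * p1 - y 1 * p0)) with hdw
  let d : E9 := !₂[0, 0, 0, 0, 0, ds / s, du, dv, dw]
  refine ⟨fun t => z + t • d, d, hasDerivAt_line _ _, by simp, ?_⟩
  have hc5 : HasDerivAt (fun t : ℝ => Real.exp ((z + t • d) 5)) ds 0 := by
    have := (hasDerivAt_coord z d 5).exp
    refine this.congr_deriv ?_
    simp only [zero_smul, add_zero]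
    rw [← hs]
    show s * (ds / s) = ds
    field_simp
  have hnn : ∀ t : ℝ, nn (z + t • d) = nn z := by
    intro t
    simp [nn, d]
  have hg0 : HasDerivAt (fun t : ℝ => g0 (z + t • d)) 0 0 := by
    have : (fun t : ℝ => g0 (z + t • d)) = fun _ => g0 z := by
      funext t
      simp only [g0, hnn]
    rw [this]
    exact hasDerivAt_const _ _
  have hg1 : HasDerivAt (fun t : ℝ => g1 (z + t • d)) 0 0 := by
    have : (fun t : ℝ => g1 (z + t • d)) = fun _ => g1 z := by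
      funext t
      simp only [g1, hnn]
      simp [d]
    rw [this]
    exact hasDerivAt_const _ _
  have hg2 : HasDerivAt (fun t : ℝ => g2 (z + t • d)) 0 0 := by
    have : (fun t : ℝ => g2 (z + t • d)) = fun _ => g2 z := by
      funext t
      simp only [g2, hnn]
      simp [d]
    rw [this]
    exact hasDerivAt_const _ _
  have := hasDerivAt_rot hc5 (hasDerivAt_coord z d 6) (hasDerivAt_coord z d 7)
    (hasDerivAt_coord z d 8) hg0 hg1 hg2
  refine HasDerivAt.congr_deriv this ?_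
  have d6 : d 6 = du := rfl
  have d7 : d 7 = dv := rfl
  have d8 : d 8 = dw := rfl
  simp only [zero_smul, add_zero, d6, d7, d8, ← hs]
  ext i
  fin_cases i
  · simp [rot]
    rw [hdu, hdv, hdw, hds]
    linear_combination (y 0) * hk1 + 0 * hN
  · simp [rot]
    rw [hdu, hdv, hdw, hds]
    linear_combination (y 1) * hk1 + 0 * hN
  · simp [rot]
    rw [hdu, hdv, hdw, hds]
    linear_combination (y 2) * hk1 + 0 * hN

theorem zero_cases {z : E9} (h0 : g0 z = 0) (h1 : g1 z = 0) (h2 : g2 z = 0) :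
    (nn z = 1 ∧ z 3 = 0 ∧ z 4 = 0) ∨ (nn z = 1 / 4 ∧ z 1 = 0 ∧ z 2 = 0 ∧ z 0 ^ 2 = 1 / 4) := by
  rcases mul_eq_zero.1 h0 with h | h
  · left
    have e : nn z = 1 := by linarith
    simp only [g1, g2, e] at h1 h2
    refine ⟨e, by linarith, by linarith⟩
  · right
    have e : nn z = 1 / 4 := by linarith
    simp only [g1, g2, e] at h1 h2
    have e1 : z 1 = 0 := by linarith
    have e2 : z 2 = 0 := by linarith
    refine ⟨e, e1, e2, ?_⟩
    simp only [nn, e1, e2] at e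
    linarith

theorem Phi_surj_of_eq {z : E9} (h0 : g0 z = 0) (h1 : g1 z = 0) (h2 : g2 z = 0) :
    Surjective (fderiv ℝ Phi z) := by
  apply surj_of_curve ((contDiff_Phi.differentiable (by simp)) z)
  intro y
  have hs0 : 0 < Real.exp (z 5) := Real.exp_pos _
  obtain ⟨a, b, c, habc⟩ := rot_surj (Real.exp (z 5)) (z 6) (z 7) (z 8) (by positivity) y
  -- find the direction
  obtain ⟨d, d5, d6, d7, d8, e0, e1, e2⟩ : ∃ d : E9, d 5 = 0 ∧ d 6 = 0 ∧ d 7 = 0 ∧ d 8 = 0 ∧
      nn' z d * (nn z - 1 / 4) + (nn z - 1) * nn' z d = a ∧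
      nn' z d * z 1 + (nn z - 1) * d 1 + (nn' z d * z 3 + (nn z - 1 / 4) * d 3) = b ∧
      nn' z d * z 2 + (nn z - 1) * d 2 + (nn' z d * z 4 + (nn z - 1 / 4) * d 4) = c := by
    rcases zero_cases h0 h1 h2 with ⟨hn, h3, h4⟩ | ⟨hn, k1, k2, k0⟩
    · refine ⟨!₂[(2 / 3 * a) * z 0, (2 / 3 * a) * z 1, (2 / 3 * a) * z 2,
        4 / 3 * (b - 4 / 3 * a * z 1), 4 / 3 * (c - 4 / 3 * a * z 2), 0, 0, 0, 0], rfl, rfl, rfl,
        rfl, ?_, ?_, ?_⟩
      · have hn2 := hn
        simp only [nn] at hn2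
        simp [nn', hn]
        linear_combination a * hn2
      · have hn2 := hn
        simp only [nn] at hn2
        simp [nn', hn, h3]
        linear_combination (4 / 3 * a * z 1) * hn2
      · have hn2 := hn
        simp only [nn] at hn2
        simp [nn', hn, h4]
        linear_combination (4 / 3 * a * z 2) * hn2
    · have hz0 : z 0 ≠ 0 := by
        intro h
        rw [h] at k0
        norm_num at k0
      refine ⟨!₂[-(4 / 3 * a) / (2 * z 0), -(4 / 3) * (b + 4 / 3 * a * z 3),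
        -(4 / 3) * (c + 4 / 3 * a * z 4), 0, 0, 0, 0, 0, 0], rfl, rfl, rfl, rfl, ?_, ?_, ?_⟩
      · simp [nn', hn, k1, k2]
        field_simp
        ring
      · simp [nn', hn, k1, k2]
        field_simp
        ring
      · simp [nn', hn, k1, k2]
        field_simp
        ring
  refine ⟨fun t => z + t • d, d, hasDerivAt_line _ _, by simp, ?_⟩
  have hc5 : HasDerivAt (fun t : ℝ => Real.exp ((z + t • d) 5)) 0 0 := by
    have := (hasDerivAt_coord z d 5).exp
    refine this.congr_deriv ?_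
    rw [d5, mul_zero]
  have k0 := hasDerivAt_g0 z d
  have k1 := hasDerivAt_g1 z d
  have k2 := hasDerivAt_g2 z d
  rw [e0] at k0
  rw [e1] at k1
  rw [e2] at k2
  have := hasDerivAt_rot hc5 (hasDerivAt_coord z d 6) (hasDerivAt_coord z d 7)
    (hasDerivAt_coord z d 8) k0 k1 k2
  refine HasDerivAt.congr_deriv this ?_
  simp only [zero_smul, add_zero, d6, d7, d8, h0, h1, h2, habc]
  ext i
  fin_cases i <;> simp

theorem Phi_surj (z : E9) : Surjective (fderiv ℝ Phi z) := by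
  by_cases h : g0 z = 0 ∧ g1 z = 0 ∧ g2 z = 0
  · exact Phi_surj_of_eq h.1 h.2.1 h.2.2
  · apply Phi_surj_of_ne
    tauto

theorem Phi_zero {z : E9} (hz : z ∈ L0) : Phi z = 0 := by
  have h : g0 z = 0 ∧ g1 z = 0 ∧ g2 z = 0 := by
    rcases hz with ⟨h, h3, h4⟩ | ⟨h0, h1, h2⟩
    · simp [g0, g1, g2, nn, h, h3, h4]
    · have : nn z = 1 / 4 := by
        simp only [nn, h0, h1, h2]
        norm_num
      simp [g0, g1, g2, this, h1, h2]
  rw [Phi, h.1, h.2.1, h.2.2]
  ext i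
  fin_cases i <;> simp [rot]

end Pool.Agent.R745.WI
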