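import Mathlib

/-!
Nowhere vanishing orthogonal fields along families of nowhere vanishing vector functions.
-/

set_option autoImplicit false
open Set Metric Function

namespace Pool.Agent.R745.WI

abbrev E3 := EuclideanSpace ℝ (Fin 3)

/-- `f : X → ℝ³` admits a continuous nowhere vanishing field orthogonal to it. -/
def HasPerp {X : Type*} [TopologicalSpace X] (f : X → E3) : Prop :=
  ∃ ψ : X → E3, Continuous ψ ∧ (∀ x, ψ x ≠ 0) ∧ ∀ x, inner ℝ (f x) (ψ x) = 0

theorem HasPerp.step {X : Type*} [TopologicalSpace X] {f g : X → E3} (hf : HasPerp f)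
    (hg : Continuous g) (hg1 : ∀ x, ‖g x‖ = 1) (hd : ∀ x, ‖g x - f x‖ < 1) : HasPerp g := by
  obtain ⟨ψ, hψ, h0, hp⟩ := hf
  refine ⟨fun x => ψ x - (inner ℝ (g x) (ψ x)) • g x, by fun_prop, ?_, ?_⟩
  · intro x h
    have h1 : ψ x = (inner ℝ (g x) (ψ x)) • g x := sub_eq_zero.1 h
    have h2 : ‖ψ x‖ = |inner ℝ (g x) (ψ x)| := by
      conv_lhs => rw [h1]
      rw [norm_smul, hg1, mul_one, Real.norm_eq_abs]
    have h3 : inner ℝ (g x) (ψ x) = inner ℝ (g x - f x) (ψ x) := by
      rw [inner_sub_left, hp, sub_zero]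
    have h4 : |inner ℝ (g x - f x) (ψ x)| ≤ ‖g x - f x‖ * ‖ψ x‖ := abs_real_inner_le_norm _ _
    have h5 : 0 < ‖ψ x‖ := norm_pos_iff.2 (h0 x)
    rw [h3] at h2
    nlinarith [hd x]
  · intro x
    rw [inner_sub_right, inner_smul_right, real_inner_self_eq_norm_sq, hg1]
    ring

theorem HasPerp.smul {X : Type*} [TopologicalSpace X] {f : X → E3} (hf : HasPerp f)
    (c : X → ℝ) : HasPerp (fun x => c x • f x) := by
  obtain ⟨ψ, hψ, h0, hp⟩ := hf
  refine ⟨ψ, hψ, h0, fun x => ?_⟩
  rw [inner_smul_left, hp]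
  simp

theorem HasPerp.of_smul {X : Type*} [TopologicalSpace X] {f : X → E3}
    (c : X → ℝ) (hc : ∀ x, c x ≠ 0) (hf : HasPerp (fun x => c x • f x)) : HasPerp f := by
  have := hf.smul (fun x => (c x)⁻¹)
  simpa [smul_smul, inv_mul_cancel₀ (hc _)] using this

theorem HasPerp.transport {X : Type*} [MetricSpace X] [CompactSpace X] (F : X → ℝ → E3)
    (hF : Continuous (uncurry F)) {a b : ℝ} (hne : ∀ x, ∀ r ∈ Icc a b, F x r ≠ 0) {r s : ℝ}
    (hr : r ∈ Icc a b) (hs : s ∈ Icc a b) (h : HasPerp (fun x => F x r)) :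
    HasPerp (fun x => F x s) := by
  let N : X × Icc a b → E3 := fun p => ‖F p.1 p.2‖⁻¹ • F p.1 p.2
  have hFc : Continuous fun p : X × Icc a b => F p.1 p.2 :=
    hF.comp (continuous_fst.prodMk (continuous_subtype_val.comp continuous_snd))
  have hn0 : ∀ p : X × Icc a b, ‖F p.1 p.2‖ ≠ 0 := fun p => norm_ne_zero_iff.2 (hne _ _ p.2.2)
  have hN : Continuous N := (hFc.norm.inv₀ hn0).smul hFc
  have hN1 : ∀ p, ‖N p‖ = 1 := by
    intro p
    simp only [N]
    rw [norm_smul, norm_inv, norm_norm, inv_mul_cancel₀ (hn0 p)]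
  have hu := CompactSpace.uniformContinuous_of_continuous hN
  obtain ⟨δ, hδ, hδ'⟩ := Metric.uniformContinuous_iff.1 hu 1 one_pos
  have key : ∀ r s : Icc a b, dist r s < δ → HasPerp (fun x => N (x, r)) →
      HasPerp (fun x => N (x, s)) := by
    intro r s hrs h
    refine h.step (hN.comp (by fun_prop)) (fun x => hN1 _) fun x => ?_
    rw [← dist_eq_norm]
    apply hδ'
    rw [Prod.dist_eq]
    simp only [dist_self]
    rw [dist_comm]
    exact max_lt hδ hrs
  let S : Set (Icc a b) := {r | HasPerp (fun x => N (x, r))}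
  have hS : IsClopen S := by
    constructor
    · rw [← isOpen_compl_iff, Metric.isOpen_iff]
      intro r hr
      refine ⟨δ, hδ, fun s hs hs' => hr ?_⟩
      exact key s r hs hs'
    · rw [Metric.isOpen_iff]
      intro r hr
      refine ⟨δ, hδ, fun s hs => ?_⟩
      refine key r s ?_ hr
      rw [dist_comm]; exact hs
  have : PreconnectedSpace (Icc a b) := Subtype.preconnectedSpace isPreconnected_Icc
  have hmem : (⟨r, hr⟩ : Icc a b) ∈ S := h.smul _
  have huniv : S = univ := hS.eq_univ ⟨_, hmem⟩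
  have hs' : (⟨s, hs⟩ : Icc a b) ∈ S := by rw [huniv]; trivial
  exact HasPerp.of_smul (fun x => ‖F x s‖⁻¹)
    (fun x => inv_ne_zero (norm_ne_zero_iff.2 (hne x s hs))) hs'

theorem HasPerp.congr {X : Type*} [TopologicalSpace X] {f g : X → E3} (h : HasPerp f)
    (hfg : ∀ x, f x = g x) : HasPerp g := by
  have : f = g := funext hfg
  rwa [← this]

/-- remove an invertible linear map -/
theorem HasPerp.of_map {X : Type*} [TopologicalSpace X] {f : X → E3} (B : E3 →L[ℝ] E3)
    (hB : Surjective B) (h : HasPerp (fun x => B (f x))) : HasPerp f := by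
  obtain ⟨ψ, hψ, h0, hp⟩ := h
  refine ⟨fun x => ContinuousLinearMap.adjoint B (ψ x), by fun_prop, ?_, ?_⟩
  · intro x hx
    obtain ⟨v, hv⟩ := hB (ψ x)
    have h1 : inner ℝ (B v) (ψ x) = 0 := by
      rw [← ContinuousLinearMap.adjoint_inner_right]
      have hx' : ContinuousLinearMap.adjoint B (ψ x) = 0 := hx
      rw [hx', inner_zero_right]
    rw [hv] at h1
    exact h0 x (inner_self_eq_zero.1 h1)
  · intro x
    rw [ContinuousLinearMap.adjoint_inner_right, hp]

/-- a linearly independent pair gives a nowhere vanishing orthogonal field -/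
theorem HasPerp.of_indep {X : Type*} [TopologicalSpace X] {f v : X → E3} (hf : Continuous f)
    (hv : Continuous v) (h0 : ∀ x, f x ≠ 0) (h1 : ∀ x, ∀ c : ℝ, v x ≠ c • f x) : HasPerp f := by
  have hn : ∀ x, (inner ℝ (f x) (f x) : ℝ) ≠ 0 := fun x hx => h0 x (inner_self_eq_zero.1 hx)
  refine ⟨fun x => v x - (inner ℝ (f x) (v x) / inner ℝ (f x) (f x)) • f x, ?_, ?_, ?_⟩
  · refine hv.sub (Continuous.smul (Continuous.div (by fun_prop) (by fun_prop) hn) hf)
  · intro x hx
    exact h1 x _ (sub_eq_zero.1 hx)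
  · intro x
    rw [inner_sub_right, inner_smul_right, div_mul_cancel₀ _ (hn x), sub_self]

/-- difference quotient of a `C¹` map -/
noncomputable def quot {V W : Type*} [NormedAddCommGroup V] [NormedSpace ℝ V]
    [NormedAddCommGroup W] [NormedSpace ℝ W] (Ξ : V → W) (p d : V) (r : ℝ) : W :=
  ∫ t in (0 : ℝ)..1, fderiv ℝ Ξ (p + (t * r) • d) d

section
variable {V W : Type*} [NormedAddCommGroup V] [NormedSpace ℝ V]
    [NormedAddCommGroup W] [NormedSpace ℝ W] [CompleteSpace W]

theorem quot_zero (Ξ : V → W) (p d : V) : quot Ξ p d 0 = fderiv ℝ Ξ p d := by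
  simp [quot]

theorem smul_quot {Ξ : V → W} (hΞ : ContDiff ℝ 1 Ξ) (p d : V) (r : ℝ) :
    r • quot Ξ p d r = Ξ (p + r • d) - Ξ p := by
  have h1 : ∀ t ∈ uIcc (0 : ℝ) 1, HasDerivAt (fun t : ℝ => Ξ (p + (t * r) • d))
      (r • fderiv ℝ Ξ (p + (t * r) • d) d) t := by
    intro t _
    have h2 : HasDerivAt (fun t : ℝ => p + (t * r) • d) (r • d) t := by
      have h3 : HasDerivAt (fun t : ℝ => t * r) r t := by
        simpa using (hasDerivAt_id t).mul_const r
      exact (h3.smul_const d).const_add p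
    have h4 := ((hΞ.differentiable one_ne_zero) (p + (t * r) • d)).hasFDerivAt.comp_hasDerivAt t h2
    rw [map_smul] at h4
    exact h4
  have hcont : Continuous fun t : ℝ => r • fderiv ℝ Ξ (p + (t * r) • d) d := by
    have := hΞ.continuous_fderiv one_ne_zero
    fun_prop
  have h5 := intervalIntegral.integral_eq_sub_of_hasDerivAt h1 (hcont.intervalIntegrable _ _)
  rw [quot, ← intervalIntegral.integral_smul, h5]
  simp

theorem continuous_quot {Y : Type*} [TopologicalSpace Y] [LocallyCompactSpace Y] {Ξ : V → W}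
    (hΞ : ContDiff ℝ 1 Ξ)
    {p d : Y → V} (hp : Continuous p) (hd : Continuous d) :
    Continuous (uncurry fun y r => quot Ξ (p y) (d y) r) := by
  have hf := hΞ.continuous_fderiv one_ne_zero
  have : Continuous fun q : Y × ℝ => ∫ t in (0 : ℝ)..1,
      fderiv ℝ Ξ (p q.1 + (t * q.2) • d q.1) (d q.1) := by
    apply intervalIntegral.continuous_parametric_intervalIntegral_of_continuous'
    fun_prop
  exact this
end

end Pool.Agent.R745.WI
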